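import Pool.Agent.H21.L.R_seed8.TH942.ES.Star

/-!
# The limit formula for partial Euler products and the analytic continuation
-/

set_option autoImplicit false

open Filter Topology Set Complex MeasureTheory
open Pool.Agent.TH942.LS (Dat P P_le Cont Qf)
open Pool.Agent.TH942.SL

namespace Pool.Agent.TH942.ES

variable {X : Type} {d : ℕ} {N : X → ℕ} {α : X → Fin d → ℂ}

lemma sect_one : Sect 1 = {s : ℂ | 0 < s.re} := by
  ext s
  simp only [Sect, Set.mem_ofPred_eq, mul_one]
  constructor
  · rintro ⟨h1, h2⟩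
    rcases Complex.abs_arg_lt_pi_div_two_iff.1 h2 with h | h
    · exact h
    · exact absurd h h1
  · intro h
    exact ⟨ne_zero' h, Complex.abs_arg_lt_pi_div_two_iff.2 (Or.inl h)⟩

lemma sect_open' {ρ : ℝ} (h : 1 ≤ ρ) : IsOpen (Sect ρ) := by
  rcases h.eq_or_lt with h | h
  · rw [← h, sect_one]
    exact isOpen_lt continuous_const Complex.continuous_re
  · exact sect_open h

lemma sect_convex' {ρ : ℝ} (h : 1 ≤ ρ) : Convex ℝ (Sect ρ) := by
  rcases h.eq_or_lt with h | h
  · rw [← h, sect_one]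
    exact convex_halfSpace_re_gt 0
  · exact sect_convex h

lemma sect_re' {ρ : ℝ} (h : 1 ≤ ρ) {s : ℂ} (hs : s ∈ Sect ρ) : 0 < s.re := by
  have := sect_mono' le_rfl h hs
  rwa [sect_one] at this

lemma sect_real' {ρ : ℝ} (h : 1 ≤ ρ) {x : ℝ} (hx : 0 < x) : (x : ℂ) ∈ Sect ρ := by
  refine ⟨by exact_mod_cast hx.ne', ?_⟩
  rw [Complex.arg_ofReal_of_nonneg hx.le, abs_zero]
  have := Real.pi_pos
  positivity

/-- convergence of the logarithm -/
lemma log_conv {ρ : ℝ} (hρ : 1 < ρ) {u : ℂ → ℂ} (hd : ∀ s ∈ Sect ρ, DifferentiableAt ℂ u s)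
    {A : ℝ} (hA : 0 < A) (hl : Tendsto (fun s => exp (u s)) (𝓝[Sect ρ] 0) (𝓝 (A : ℂ))) :
    ∃ κ : ℂ, exp κ = A ∧ Tendsto u (𝓝[Sect ρ] 0) (𝓝 κ) := by
  have hAc : (A : ℂ) ≠ 0 := by exact_mod_cast hA.ne'
  have hl1 : Tendsto (fun s => exp (u s) / A) (𝓝[Sect ρ] 0) (𝓝 1) := by
    have := hl.div_const (A : ℂ)
    rwa [div_self hAc] at this
  have h1 : ∀ᶠ s in 𝓝[Sect ρ] 0, exp (u s) / A ∈ slitPlane :=
    hl1.eventually (isOpen_slitPlane.mem_nhds one_mem_slitPlane)
  rw [eventually_nhdsWithin_iff, Metric.eventually_nhds_iff] at h1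
  obtain ⟨r, hr, h2⟩ := h1
  set U : Set ℂ := Sect ρ ∩ Metric.ball 0 r with hU
  have hUo : IsOpen U := (sect_open hρ).inter Metric.isOpen_ball
  have hUc : Convex ℝ U := (sect_convex hρ).inter (convex_ball 0 r)
  have hx : ((r / 2 : ℝ) : ℂ) ∈ U := by
    refine ⟨sect_real hρ (by positivity), ?_⟩
    rw [Metric.mem_ball, dist_zero_right, Complex.norm_real, Real.norm_eq_abs,
      abs_of_pos (by positivity)]
    linarith
  have hsl : ∀ s ∈ U, exp (u s) / A ∈ slitPlane := fun s hs => h2 hs.2 hs.1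
  set v : ℂ → ℂ := fun s => u s - log (exp (u s) / A) with hv
  have hvd : ∀ s ∈ U, HasDerivAt v 0 s := by
    intro s hs
    have e1 := (hd s hs.1).hasDerivAt
    have e2 : HasDerivAt (fun s => exp (u s) / A) (exp (u s) * deriv u s / A) s :=
      e1.cexp.div_const _
    refine (e1.sub (e2.clog (hsl s hs))).congr_deriv ?_
    have := Complex.exp_ne_zero (u s)
    field_simp
    ring
  have hvc : ∀ s ∈ U, v s = v ((r / 2 : ℝ) : ℂ) := fun s hs => const_of_deriv hUo hUc hvd hs hx
  set κ : ℂ := v ((r / 2 : ℝ) : ℂ) with hκ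
  refine ⟨κ, ?_, ?_⟩
  · rw [hκ, hv]
    simp only
    rw [Complex.exp_sub, Complex.exp_log (slitPlane_ne_zero (hsl _ hx))]
    have := Complex.exp_ne_zero (u ((r / 2 : ℝ) : ℂ))
    field_simp
  · have e1 : Tendsto (fun s => log (exp (u s) / A)) (𝓝[Sect ρ] 0) (𝓝 0) := by
      have := (continuousAt_clog one_mem_slitPlane).tendsto.comp hl1
      rwa [Complex.log_one] at this
    have e2 := (tendsto_const_nhds (x := κ) (f := 𝓝[Sect ρ] (0 : ℂ))).add e1
    rw [add_zero] at e2
    refine e2.congr' ?_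
    filter_upwards [inter_mem_nhdsWithin (Sect ρ) (Metric.ball_mem_nhds (0 : ℂ) hr)] with s hs
    rw [← hvc s hs, hv]
    ring

namespace Sys

variable (E : Sys N α)
include E

/-- **The limit formula and the continuation.** -/
theorem star_equiv (hreal : ∀ v k, (∑ i, zv N α v i ^ k).im = 0) {ρ₀ : ℝ} (h : 1 ≤ ρ₀) (r : ℕ)
    {A : ℝ} (hA : 0 < A) :
    (∀ ρ ρ' : ℝ, ρ₀ < ρ → ρ < ρ' →
      Tendsto (fun Y : ℝ => StE N α ρ ρ' Y + r * Real.log (Real.log Y)) atTop
        (𝓝 (Real.log A - r * Real.eulerMascheroniConstant / ρ))) ↔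
    ∃ G : ℂ → ℂ, (∀ s : ℂ, s ∈ Sect ρ₀ ∨ 1 / 2 < s.re → DifferentiableAt ℂ G s ∧ G s ≠ 0) ∧
      (∀ s : ℂ, 1 / 2 < s.re → G s = LE N α s) ∧
      ∀ ρ : ℝ, ρ₀ < ρ → Tendsto (fun s => G s / s ^ r) (𝓝[Sect ρ] 0) (𝓝 (A : ℂ)) := by
  have := E.cnt
  obtain ⟨e, he⟩ := Countable.exists_injective_nat (X × ℕ)
  -- translation to the means
  have htr : ∀ ρ ρ' : ℝ, ρ₀ < ρ → ρ < ρ' → ∀ l : ℝ,
      (Tendsto (fun Y : ℝ => StE N α ρ ρ' Y + r * Real.log (Real.log Y)) atTop (𝓝 l) ↔
      Tendsto (fun y : ℝ => M (lamS N e) (cS N α e) ρ⁻¹ y - (-(r : ℝ)) * ρ⁻¹ * Real.log y) atTop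
        (𝓝 l)) := by
    intro ρ ρ' hρ hρ' l
    have hρ1 : 1 < ρ := by linarith
    have hρ0 : 0 < ρ := by linarith
    have hc := E.St_close he hρ1 hρ'
    have hpow : Tendsto (fun Y : ℝ => Real.log Y ^ ρ) atTop atTop :=
      (tendsto_rpow_atTop hρ0).comp Real.tendsto_log_atTop
    have hid : ∀ Y : ℝ, 1 < Y → ρ⁻¹ * Real.log (Real.log Y ^ ρ) = Real.log (Real.log Y) := by
      intro Y hY
      rw [Real.log_rpow (Real.log_pos hY)]
      field_simp
    constructor
    · intro h1
      have h2 := h1.sub hc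
      rw [sub_zero] at h2
      have h3 := h2.comp (tendsto_exp_rpow hρ1)
      refine h3.congr' ?_
      filter_upwards [eventually_gt_atTop 0] with y hy
      have e1 := hid (Real.exp (y ^ ρ⁻¹)) (by
        rw [← Real.exp_zero]
        exact Real.exp_lt_exp.2 (by positivity))
      simp only [Function.comp_apply]
      rw [← e1, pow_log hρ1 hy.le]
      ring
    · intro h1
      have h2 := (h1.comp hpow).add hc
      rw [add_zero] at h2
      refine h2.congr' ?_
      filter_upwards [eventually_gt_atTop 1] with Y hY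
      simp only [Function.comp_apply]
      rw [← hid Y hY]
      ring
  have hcst : ∀ ρ : ℝ, Real.log A + -(r : ℝ) * ρ⁻¹ * Real.eulerMascheroniConstant =
      Real.log A - r * Real.eulerMascheroniConstant / ρ := fun ρ => by
    rw [div_eq_mul_inv]
    ring
  constructor
  · intro hM
    obtain ⟨Dh, hD1, hD2, hD3⟩ := (sect_equiv (E.datS he (σ := 1) (by norm_num)) h (-(r : ℝ))
      (Real.log A)).1 (fun ρ hρ => by
        rw [hcst]
        exact (htr ρ (ρ + 1) hρ (by linarith) _).1 (hM ρ (ρ + 1) hρ (by linarith)))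
    -- the equality to the right of `1/2`
    have hDE : ∀ s ∈ Sect ρ₀, 1 / 2 < s.re → exp (Dh s) = LE N α s := by
      intro s hs hs2
      obtain ⟨ρ, hρ, hsρ⟩ := exists_sect' h hs
      have hρ1 : 1 < ρ := by linarith
      have hsub := sect_mono' h hρ.le
      obtain ⟨σ', h3, h4⟩ := exists_between hs2
      set R : Set ℂ := Sect ρ ∩ {s : ℂ | σ' < s.re} with hR
      have hRo : IsOpen R :=
        (sect_open hρ1).inter (isOpen_lt continuous_const Complex.continuous_re)
      have hRc : Convex ℝ R := (sect_convex hρ1).inter (convex_halfSpace_re_gt _)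
      have a1 : AnalyticOnNhd ℂ Dh R :=
        DifferentiableOn.analyticOnNhd
          (fun s hs => (hD1 s (hsub hs.1)).differentiableWithinAt) hRo
      have a2 : AnalyticOnNhd ℂ (DD (lamS N e) (cS N α e)) R :=
        DifferentiableOn.analyticOnNhd (fun s hs =>
          (dd_deriv (E.datS he h3) hs.2).differentiableAt.differentiableWithinAt) hRo
      have hx0 : (0 : ℝ) < |σ'| + 2 := by positivity
      have hx1 := le_abs_self σ'
      have h2 : ((|σ'| + 2 : ℝ) : ℂ) ∈ R := ⟨sect_real hρ1 hx0, by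
        change σ' < ((|σ'| + 2 : ℝ) : ℂ).re
        rw [Complex.ofReal_re]
        linarith⟩
      have ho : IsOpen {z : ℂ | 1 < z.re} := isOpen_lt continuous_const Complex.continuous_re
      have a3 := a1.eqOn_of_preconnected_of_eventuallyEq a2 hRc.isPreconnected h2 (by
        filter_upwards [hRo.mem_nhds h2, ho.mem_nhds (show 1 < ((|σ'| + 2 : ℝ) : ℂ).re by
          rw [Complex.ofReal_re]
          have := abs_nonneg σ'
          linarith)] with z hz hz2
        exact hD2 z (hsub hz.1) hz2)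
      rw [a3 ⟨hsρ, h4⟩]
      exact E.exp_DD hreal he hs2
    set G : ℂ → ℂ := fun s => if 1 / 2 < s.re then LE N α s else exp (Dh s) with hG
    have hG1 : ∀ s : ℂ, 1 / 2 < s.re → G s = LE N α s := fun s hs => by
      rw [hG]
      simp only
      rw [if_pos hs]
    have hG2 : ∀ s ∈ Sect ρ₀, G s = exp (Dh s) := fun s hs => by
      by_cases h2 : 1 / 2 < s.re
      · rw [hG1 s h2, hDE s hs h2]
      · rw [hG]
        simp only
        rw [if_neg h2]
    refine ⟨G, fun s hs => ?_, hG1, fun ρ hρ => ?_⟩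
    · rcases hs with hs | hs
      · constructor
        · refine DifferentiableAt.congr_of_eventuallyEq (f := fun s => exp (Dh s)) ?_ ?_
          · exact (hD1 s hs).cexp
          · filter_upwards [(sect_open' h).mem_nhds hs] with z hz
            exact hG2 z hz
        · rw [hG2 s hs]
          exact Complex.exp_ne_zero _
      · have ho : IsOpen {z : ℂ | 1 / 2 < z.re} := isOpen_lt continuous_const Complex.continuous_re
        obtain ⟨e1, e2⟩ := E.LE_diff hs
        refine ⟨e1.congr_of_eventuallyEq ?_, by rw [hG1 s hs]; exact e2⟩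
        filter_upwards [ho.mem_nhds hs] with z hz
        exact hG1 z hz
    · have e1 := (Complex.continuous_exp.tendsto _).comp (hD3 ρ hρ)
      have e2 : exp ((Real.log A : ℝ) : ℂ) = A := by
        rw [← Complex.ofReal_exp, Real.exp_log hA]
      rw [e2] at e1
      refine e1.congr' ?_
      filter_upwards [self_mem_nhdsWithin] with s hs
      have hs0 : s ≠ 0 := hs.1
      simp only [Function.comp_apply]
      rw [hG2 s (sect_mono' h hρ.le hs), Complex.exp_add]
      have e3 : exp (((-(r : ℝ) : ℝ) : ℂ) * log s) = (s ^ r)⁻¹ := by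
        push_cast
        rw [neg_mul, Complex.exp_neg, Complex.exp_nat_mul, Complex.exp_log hs0]
      rw [e3, div_eq_mul_inv]
  · rintro ⟨G, hG1, hG2, hG3⟩ ρ ρ' hρ hρ'
    have hρ1 : 1 < ρ := by linarith
    -- the primitive
    have hGan : ∀ s ∈ Sect ρ₀, AnalyticAt ℂ G s := fun s hs => by
      have h1 : DifferentiableOn ℂ G (Sect ρ₀) := fun z hz =>
        (hG1 z (Or.inl hz)).1.differentiableWithinAt
      exact h1.analyticAt ((sect_open' h).mem_nhds hs)
    have hqd : DifferentiableOn ℂ (fun s => deriv G s / G s) (Sect ρ₀) := fun s hs =>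
      ((hGan s hs).deriv.differentiableAt.div (hG1 s (Or.inl hs)).1
        (hG1 s (Or.inl hs)).2).differentiableWithinAt
    obtain ⟨F, hF⟩ := convex_primitive (sect_open' h) (sect_convex' h) hqd
    set R : Set ℂ := Sect ρ₀ ∩ {s : ℂ | 1 < s.re} with hR
    have hRo : IsOpen R :=
      (sect_open' h).inter (isOpen_lt continuous_const Complex.continuous_re)
    have hRc : Convex ℝ R := (sect_convex' h).inter (convex_halfSpace_re_gt _)
    have hw : ((2 : ℝ) : ℂ) ∈ R := ⟨sect_real' h (by norm_num), by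
      change 1 < ((2 : ℝ) : ℂ).re
      rw [Complex.ofReal_re]
      norm_num⟩
    set D := DD (lamS N e) (cS N α e) with hD
    have hDdiff : ∀ s ∈ R, DifferentiableAt ℂ D s := fun s hs =>
      (dd_deriv (E.datS he (σ := 1) (by norm_num)) hs.2).differentiableAt
    have hGD : ∀ s ∈ R, G s = exp (D s) := by
      intro s hs
      have h1 : 1 < s.re := hs.2
      rw [hG2 s (by linarith), hD, E.exp_DD hreal he (by linarith)]
    have hcon : ∀ s ∈ R, HasDerivAt (fun s => F s - D s) 0 s := by
      intro s hs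
      have e1 := (hDdiff s hs).hasDerivAt
      refine ((hF s hs.1).sub e1).congr_deriv ?_
      have e2 : G =ᶠ[𝓝 s] fun s => exp (D s) := by
        filter_upwards [hRo.mem_nhds hs] with z hz
        exact hGD z hz
      rw [e2.deriv_eq, e2.eq_of_nhds, e1.cexp.deriv]
      have := Complex.exp_ne_zero (D s)
      field_simp
      ring
    set k : ℂ := F ((2 : ℝ) : ℂ) - D ((2 : ℝ) : ℂ) with hk
    have hFD : ∀ s ∈ R, F s - k = D s := by
      intro s hs
      have := const_of_deriv hRo hRc hcon hs hw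
      rw [← hk] at this
      linear_combination this
    have hexp : ∀ s ∈ Sect ρ₀, exp (F s - k) = G s := by
      intro s hs
      have h1 : ∀ z ∈ Sect ρ₀, HasDerivAt (fun z => exp (F z - k) / G z) 0 z := by
        intro z hz
        have h2 := (hG1 z (Or.inl hz)).2
        have e1 := ((hF z hz).sub_const k).cexp.div (hG1 z (Or.inl hz)).1.hasDerivAt h2
        refine e1.congr_deriv ?_
        field_simp
        ring
      have h2 := const_of_deriv (sect_open' h) (sect_convex' h) h1 hs hw.1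
      have h3 : exp (F ((2 : ℝ) : ℂ) - k) / G ((2 : ℝ) : ℂ) = 1 := by
        rw [hFD _ hw, hGD _ hw, div_self (Complex.exp_ne_zero _)]
      rw [h3, div_eq_one_iff_eq (hG1 s (Or.inl hs)).2] at h2
      exact h2
    -- the logarithm converges at the vertex
    obtain ⟨ρ₁, h4, h5⟩ := exists_between hρ
    have hρ11 : 1 < ρ₁ := by linarith
    have hsub := sect_mono' h h4.le
    obtain ⟨κ, hκ1, hκ2⟩ := log_conv hρ11
      (u := fun s => (F s - k) + ((-(r : ℝ) : ℝ) : ℂ) * log s) (fun s hs =>
        ((hF s (hsub hs)).differentiableAt.sub_const k).add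
          ((Complex.hasDerivAt_log (slit (sect_re hρ11 hs))).differentiableAt.const_mul _)) hA (by
      refine (hG3 ρ₁ h4).congr' ?_
      filter_upwards [self_mem_nhdsWithin] with s hs
      have hs0 : s ≠ 0 := hs.1
      rw [Complex.exp_add, hexp s (hsub hs)]
      have e3 : exp (((-(r : ℝ) : ℝ) : ℂ) * log s) = (s ^ r)⁻¹ := by
        push_cast
        rw [neg_mul, Complex.exp_neg, Complex.exp_nat_mul, Complex.exp_log hs0]
      rw [e3, div_eq_mul_inv])
    have main := lim_sector (E.datS he (σ := 1) (by norm_num)) hρ11 h5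
      (Dh := fun s => F s - k) (fun s hs => (hF s (hsub hs)).differentiableAt.sub_const k)
      (fun s hs hs2 => hFD s ⟨hsub hs, hs2⟩) hκ2
    -- the constant is real
    have him := (Complex.continuous_im.tendsto _).comp main
    have hre := (Complex.continuous_re.tendsto _).comp main
    have e1 : ((((-(r : ℝ) : ℝ) : ℂ)) * ((ρ⁻¹ : ℝ) : ℂ) * Real.eulerMascheroniConstant) =
        ((-(r : ℝ) * ρ⁻¹ * Real.eulerMascheroniConstant : ℝ) : ℂ) := by push_cast; ring
    rw [e1] at him hre
    rw [Complex.add_im, Complex.ofReal_im, add_zero] at him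
    rw [Complex.add_re, Complex.ofReal_re] at hre
    have him0 : κ.im = 0 := by
      refine tendsto_nhds_unique him ?_
      refine (tendsto_const_nhds (x := (0 : ℝ))).congr fun y => ?_
      simp only [Function.comp_apply, Complex.ofReal_im]
    have hκr : κ = ((κ.re : ℝ) : ℂ) := Complex.ext (by simp) (by simp [him0])
    have hκl : κ.re = Real.log A := by
      rw [hκr, ← Complex.ofReal_exp] at hκ1
      have : Real.exp κ.re = A := by exact_mod_cast hκ1
      rw [← this, Real.log_exp]
    rw [hκl] at hre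
    rw [htr ρ ρ' hρ hρ', ← hcst]
    refine hre.congr fun y => ?_
    simp only [Function.comp_apply, Complex.ofReal_re]

end Sys

end Pool.Agent.TH942.ES
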