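import Pool.Agent.H21.L.R_seed8.TH942.ES.Ext
import Pool.Agent.H21.L.R_seed8.H921R2.TatePole.Dedekind
import Pool.Agent.H21.L.R_seed8.H341R2.NF.ECCount

/-!
# Elliptic curves over number fields: the primes and the local factors
-/

set_option autoImplicit false

open Filter Topology Set Complex NumberField IsDedekindDomain
open Pool.Agent.H921R2.TatePole (nm two_le_nm nm_summable prime_sum_bdd Bdd Lam)

namespace Pool.Agent.TH942.ES

section primes

variable (K : Type) [Field K] [NumberField K]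

/-- `σ ∑ log N v (N v)^{-1-σ}` is bounded near `0` -/
theorem nf_log_sum : ∃ C σ₀ : ℝ, 0 < σ₀ ∧ ∀ σ : ℝ, 0 < σ → σ < σ₀ →
    Summable (fun v : HeightOneSpectrum (𝓞 K) => Real.log (nm v) * (nm v : ℝ) ^ (-(1 + σ))) ∧
    σ * ∑' v : HeightOneSpectrum (𝓞 K), Real.log (nm v) * (nm v : ℝ) ^ (-(1 + σ)) ≤ C := by
  obtain ⟨C, hC⟩ := prime_sum_bdd (K := K)
  obtain ⟨ε₀, hε₀, h1⟩ : ∃ ε₀ > 0, ∀ ε : ℝ, 0 < ε → ε < ε₀ →
      |∑' v : HeightOneSpectrum (𝓞 K), (nm v : ℝ) ^ (-(1 + ε)) + Real.log ε| ≤ C := by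
    rw [eventually_nhdsWithin_iff, Metric.eventually_nhds_iff] at hC
    obtain ⟨ε₀, hε₀, h⟩ := hC
    refine ⟨ε₀, hε₀, fun ε h3 h4 => ?_⟩
    have h5 := h (y := 1 + ε) (by
      rw [Real.dist_eq, add_sub_cancel_left, abs_of_pos h3]
      exact h4) (show (1 : ℝ) < 1 + ε by linarith)
    have h6 : Lam (1 + ε) = -Real.log ε := by
      unfold Lam
      rw [add_sub_cancel_left, one_div, Real.log_inv]
    simp only [h6, sub_neg_eq_add] at h5
    exact h5
  refine ⟨2 * (2 * C + Real.log 2), ε₀, hε₀, fun σ hσ hσ0 => ?_⟩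
  set ε := σ / 2 with hε
  have hε1 : 0 < ε := by positivity
  have hs1 := nm_summable (K := K) (x := 1 + ε) (by linarith)
  have hs2 := nm_summable (K := K) (x := 1 + 2 * ε) (by linarith)
  have h2 := h1 ε hε1 (by linarith)
  have h3 := h1 (2 * ε) (by positivity) (by linarith)
  have key : ∀ v : HeightOneSpectrum (𝓞 K), ε * (Real.log (nm v) * (nm v : ℝ) ^ (-(1 + σ))) ≤
      (nm v : ℝ) ^ (-(1 + ε)) - (nm v : ℝ) ^ (-(1 + 2 * ε)) := by
    intro v
    have hp2 : (2 : ℝ) ≤ nm v := by exact_mod_cast two_le_nm v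
    have hp0 : (0 : ℝ) < nm v := by linarith
    have hσε : σ = 2 * ε := by rw [hε]; ring
    rw [hσε]
    set y := ε * Real.log (nm v) with hy
    have e1 : (nm v : ℝ) ^ (-(1 + ε)) = (nm v : ℝ) ^ (-(1 + 2 * ε)) * Real.exp y := by
      rw [Real.rpow_def_of_pos hp0, Real.rpow_def_of_pos hp0, ← Real.exp_add]
      congr 1
      rw [hy]; ring
    have e2 : y + 1 ≤ Real.exp y := Real.add_one_le_exp y
    have e3 : 0 < (nm v : ℝ) ^ (-(1 + 2 * ε)) := by positivity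
    rw [e1]
    have e4 : ε * (Real.log (nm v) * (nm v : ℝ) ^ (-(1 + 2 * ε))) =
        (nm v : ℝ) ^ (-(1 + 2 * ε)) * y := by
      rw [hy]; ring
    rw [e4]
    nlinarith
  have hnn : ∀ v : HeightOneSpectrum (𝓞 K),
      0 ≤ ε * (Real.log (nm v) * (nm v : ℝ) ^ (-(1 + σ))) := by
    intro v
    have hp2 : (2 : ℝ) ≤ nm v := by exact_mod_cast two_le_nm v
    have := Real.log_nonneg (show (1 : ℝ) ≤ nm v by linarith)
    positivity
  have hsum : Summable (fun v : HeightOneSpectrum (𝓞 K) =>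
      ε * (Real.log (nm v) * (nm v : ℝ) ^ (-(1 + σ)))) :=
    Summable.of_nonneg_of_le hnn key (hs1.sub hs2)
  have hle := hsum.tsum_le_tsum key (hs1.sub hs2)
  rw [hs1.tsum_sub hs2] at hle
  constructor
  · have := hsum.mul_left ε⁻¹
    refine this.congr fun v => ?_
    field_simp
  · rw [tsum_mul_left] at hle
    have h4 := abs_le.mp h2
    have h5 := abs_le.mp h3
    rw [Real.log_mul (by norm_num) hε1.ne'] at h5
    have h6 : σ = 2 * ε := by rw [hε]; ring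
    nth_rewrite 1 [h6]
    nlinarith [h4.1, h4.2, h5.1, h5.2]

variable {K}

/-- systems of primes of a number field -/
theorem nf_sys (p : HeightOneSpectrum (𝓞 K) → Prop) {d : ℕ} (α : {v // p v} → Fin d → ℂ)
    (hα : ∀ v i, ‖α v i‖ ≤ 1)
    (hr : ∀ v, (∑ i, log (1 - α v i / ((√((nm v.1 : ℕ) : ℝ) : ℝ) : ℂ))).im = 0) :
    Sys (fun v : {v // p v} => nm v.1) α where
  cnt := by
    have h1 := (nm_summable (K := K) (x := 2) (by norm_num)).countable_support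
    have h2 : Function.support (fun v : HeightOneSpectrum (𝓞 K) => (nm v : ℝ) ^ (-(2 : ℝ))) =
        Set.univ := by
      ext v
      simp only [Function.mem_support, Set.mem_univ, iff_true]
      have hp2 : (2 : ℝ) ≤ nm v := by exact_mod_cast two_le_nm v
      have : (0 : ℝ) < nm v := by linarith
      positivity
    rw [h2, Set.countable_univ_iff] at h1
    exact Subtype.countable
  two_le := fun v => two_le_nm v.1
  sum := fun r hr => (nm_summable (K := K) hr).subtype _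
  log_sum := by
    obtain ⟨C, σ₀, hσ₀, h⟩ := nf_log_sum K
    refine ⟨C, σ₀, hσ₀, fun σ h1 h2 => ?_⟩
    obtain ⟨h3, h4⟩ := h σ h1 h2
    have h5 : Summable (fun v : {v // p v} =>
        Real.log (nm v.1) * (nm v.1 : ℝ) ^ (-(1 + σ))) := h3.subtype _
    refine ⟨h5, le_trans (mul_le_mul_of_nonneg_left ?_ h1.le) h4⟩
    exact Summable.tsum_subtype_le (fun v : HeightOneSpectrum (𝓞 K) =>
      Real.log (nm v) * (nm v : ℝ) ^ (-(1 + σ))) p (fun v => by
        have hp2 : (2 : ℝ) ≤ nm v := by exact_mod_cast two_le_nm v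
        have := Real.log_nonneg (show (1 : ℝ) ≤ nm v by linarith)
        positivity) h3
  le := hα
  real := hr

end primes

section roots

/-- the roots on the unit circle with trace `2t` -/
noncomputable def rt (t : ℝ) : Fin 2 → ℂ := ![t + √(1 - t ^ 2) * I, t - √(1 - t ^ 2) * I]

lemma rt_norm {t : ℝ} (ht : |t| ≤ 1) (i : Fin 2) : ‖rt t i‖ ≤ 1 := by
  have h1 : 0 ≤ 1 - t ^ 2 := by
    have := sq_le_one_iff_abs_le_one t |>.2 ht
    linarith
  have h2 : ∀ u : ℝ, u ^ 2 = 1 - t ^ 2 → ‖(t : ℂ) + u * I‖ ≤ 1 := by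
    intro u hu
    have h3 : ‖(t : ℂ) + u * I‖ ^ 2 = 1 := by
      rw [← Complex.normSq_eq_norm_sq, Complex.normSq_add_mul_I, hu]
      ring
    have := norm_nonneg ((t : ℂ) + u * I)
    nlinarith
  fin_cases i
  · exact h2 (√(1 - t ^ 2)) (Real.sq_sqrt h1)
  · have h3 := h2 (-√(1 - t ^ 2)) (by rw [neg_sq, Real.sq_sqrt h1])
    simp only [rt]
    push_cast at h3
    rw [neg_mul, ← sub_eq_add_neg] at h3
    exact h3

lemma rt_prod {t : ℝ} (ht : |t| ≤ 1) (z : ℂ) :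
    (1 - rt t 0 * z) * (1 - rt t 1 * z) = 1 - 2 * t * z + z ^ 2 := by
  have h1 : 0 ≤ 1 - t ^ 2 := by
    have := sq_le_one_iff_abs_le_one t |>.2 ht
    linarith
  have h2 : ((√(1 - t ^ 2) : ℝ) : ℂ) ^ 2 = 1 - (t : ℂ) ^ 2 := by
    rw [← Complex.ofReal_pow, Real.sq_sqrt h1]
    push_cast
    rfl
  have e0 : rt t 0 = t + √(1 - t ^ 2) * I := rfl
  have e1 : rt t 1 = t - √(1 - t ^ 2) * I := rfl
  rw [e0, e1]
  have e2 : (1 - ((t : ℂ) + √(1 - t ^ 2) * I) * z) * (1 - ((t : ℂ) - √(1 - t ^ 2) * I) * z) =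
      1 - 2 * t * z + ((t : ℂ) ^ 2 - ((√(1 - t ^ 2) : ℝ) : ℂ) ^ 2 * I ^ 2) * z ^ 2 := by ring
  rw [e2, h2, Complex.I_sq]
  ring

lemma rt_conj (t : ℝ) : rt t 1 = (starRingEnd ℂ) (rt t 0) := by
  have e0 : rt t 0 = t + √(1 - t ^ 2) * I := rfl
  have e1 : rt t 1 = t - √(1 - t ^ 2) * I := rfl
  rw [e0, e1, map_add, map_mul, Complex.conj_ofReal, Complex.conj_ofReal, Complex.conj_I]
  ring

/-- the sum of the logarithms is real -/
lemma rt_log {t : ℝ} (ht : |t| ≤ 1) {q : ℝ} (hq : 2 ≤ q) :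
    ∑ i, log (1 - rt t i / ((√q : ℝ) : ℂ)) = ((Real.log (1 - 2 * t / √q + 1 / q) : ℝ) : ℂ) := by
  have hq0 : 0 < q := by linarith
  have hs : 1 < √q := by
    rw [Real.lt_sqrt (by norm_num)]
    linarith
  set w : ℂ := 1 - rt t 0 / ((√q : ℝ) : ℂ) with hw
  have hwn : ‖rt t 0 / ((√q : ℝ) : ℂ)‖ < 1 := by
    rw [norm_div, Complex.norm_real, Real.norm_eq_abs, abs_of_pos (by linarith),
      div_lt_one (by linarith)]
    exact (rt_norm ht 0).trans_lt hs
  have hwre : 0 < w.re := by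
    rw [hw, Complex.sub_re, Complex.one_re]
    have := (Complex.re_le_norm _).trans_lt hwn
    linarith
  have hw1 : 1 - rt t 1 / ((√q : ℝ) : ℂ) = (starRingEnd ℂ) w := by
    rw [hw, rt_conj, map_sub, map_one, map_div₀, Complex.conj_ofReal]
  rw [Fin.sum_univ_two, hw1, Complex.log_conj _ (fun h => by
    have := Complex.arg_eq_pi_iff.1 h
    linarith [this.1])]
  rw [Complex.add_conj, Complex.log_re]
  have hw0 : 0 < ‖w‖ := norm_pos_iff.2 (fun h => by rw [h, Complex.zero_re] at hwre; exact lt_irrefl _ hwre)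
  have h3 : 2 * Real.log ‖w‖ = Real.log (‖w‖ ^ 2) := by
    rw [Real.log_pow]
    norm_num
  have h4 : ((‖w‖ ^ 2 : ℝ) : ℂ) = ((1 - 2 * t / √q + 1 / q : ℝ) : ℂ) := by
    rw [← Complex.normSq_eq_norm_sq, ← Complex.mul_conj, ← hw1, hw]
    have e1 := rt_prod ht (((√q : ℝ) : ℂ)⁻¹)
    rw [div_eq_mul_inv, div_eq_mul_inv, e1]
    have e2 : (((√q : ℝ) : ℂ)⁻¹) ^ 2 = ((1 / q : ℝ) : ℂ) := by
      rw [← Complex.ofReal_inv, ← Complex.ofReal_pow, inv_pow, Real.sq_sqrt hq0.le, one_div]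
    rw [e2]
    push_cast
    ring
  rw [h3, Complex.ofReal_inj.1 h4]

end roots

section curve

variable {K : Type} [Field K] [NumberField K]

/-- the prime `v` does not divide `6 (4 a³ + 27 b²)` -/
def GoodV (a b : 𝓞 K) (v : HeightOneSpectrum (𝓞 K)) : Prop :=
  6 * (4 * a ^ 3 + 27 * b ^ 2) ∉ v.asIdeal

/-- the number of affine points of `y² = x³ + a x + b` modulo `v` -/
noncomputable def ptsV (a b : 𝓞 K) (v : HeightOneSpectrum (𝓞 K)) : ℕ :=
  Nat.card {P : (𝓞 K ⧸ v.asIdeal) × (𝓞 K ⧸ v.asIdeal) //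
    P.2 ^ 2 = P.1 ^ 3 + Ideal.Quotient.mk v.asIdeal a * P.1 + Ideal.Quotient.mk v.asIdeal b}

variable {a b : 𝓞 K} {v : HeightOneSpectrum (𝓞 K)}

/-- Hasse's bound over a finite field -/
theorem hasseK {k : Type} [Field k] [Fintype k] {A B : k}
    (h6D : (6 : k) * (4 * A ^ 3 + 27 * B ^ 2) ≠ 0) :
    |(Fintype.card k : ℝ) - Nat.card {P : k × k // P.2 ^ 2 = P.1 ^ 3 + A * P.1 + B}| ≤
      2 * √(Fintype.card k) := by
  classical
  have h6 : (6 : k) ≠ 0 := left_ne_zero_of_mul h6D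
  have hD : (4 * A ^ 3 + 27 * B ^ 2 : k) ≠ 0 := right_ne_zero_of_mul h6D
  have h2 : (2 : k) ≠ 0 := by
    intro h; apply h6
    have : (6 : k) = 3 * 2 := by norm_num
    rw [this, h, mul_zero]
  have h3 : (3 : k) ≠ 0 := by
    intro h; apply h6
    have : (6 : k) = 2 * 3 := by norm_num
    rw [this, h, mul_zero]
  have h27 : (27 : k) ≠ 0 := by
    have : (27 : k) = 3 ^ 3 := by norm_num
    rw [this]; exact pow_ne_zero _ h3
  have h54 : (54 : k) ≠ 0 := by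
    have : (54 : k) = 2 * 27 := by norm_num
    rw [this]; exact mul_ne_zero h2 h27
  set c : k := -A / 27 with hc
  set c' : k := -B / 54 with hc'
  have e1 : -27 * c = A := by
    rw [hc, neg_mul, mul_div_cancel₀ _ h27, neg_neg]
  have e2 : -54 * c' = B := by
    rw [hc', neg_mul, mul_div_cancel₀ _ h54, neg_neg]
  have hcc : c ^ 3 - c' ^ 2 ≠ 0 := by
    intro h0
    apply hD
    have e3 : 4 * A ^ 3 + 27 * B ^ 2 = -78732 * (c ^ 3 - c' ^ 2) := by
      rw [← e1, ← e2]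
      ring
    rw [e3, h0, mul_zero]
  have hpts : Nat.card {P : k × k // P.2 ^ 2 = P.1 ^ 3 + A * P.1 + B} =
      Pool.Agent.H341R2.EC.short c c' := by
    unfold Pool.Agent.H341R2.EC.short
    refine Nat.card_congr (Equiv.subtypeEquivRight fun P => ?_)
    have e3 : P.1 ^ 3 + A * P.1 + B = P.1 ^ 3 - 27 * c * P.1 - 54 * c' := by
      rw [← e1, ← e2]
      ring
    rw [e3]
  have e4 := Pool.Agent.H341R2.EC.short_eq h6 c c'
  have e5 := Pool.Agent.H341R2.EC.csum_bound h6 hcc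
  unfold Pool.Agent.H341R2.EC.csum at e5
  have e6 : ((Pool.Agent.H341R2.EC.short c c' : ℕ) : ℝ) = Fintype.card k +
      ((∑ x : k, quadraticChar k ((Pool.Agent.H341R2.EC.cub c c').eval x) : ℤ) : ℝ) := by
    have := congrArg (fun z : ℤ => (z : ℝ)) e4
    simpa using this
  rw [hpts, e6, sub_add_cancel_left, abs_neg]
  exact e5

/-- **Hasse's bound** -/
theorem hasseV (h : GoodV a b v) : |(nm v : ℝ) - ptsV a b v| ≤ 2 * √(nm v) := by
  have : v.asIdeal.IsMaximal := v.isMaximal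
  have hfin : Finite (𝓞 K ⧸ v.asIdeal) := by
    have h1 : nm v ≠ 0 := by have := two_le_nm v; omega
    unfold nm at h1
    rw [Ideal.absNorm_apply, Submodule.cardQuot_apply] at h1
    exact Nat.finite_of_card_ne_zero h1
  let _ : Fintype (𝓞 K ⧸ v.asIdeal) := Fintype.ofFinite _
  have hcard : Fintype.card (𝓞 K ⧸ v.asIdeal) = nm v := by
    unfold nm
    rw [Ideal.absNorm_apply, Submodule.cardQuot_apply, Nat.card_eq_fintype_card]
  let _ : Field (𝓞 K ⧸ v.asIdeal) := Ideal.Quotient.field v.asIdeal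
  have h1 := hasseK (k := 𝓞 K ⧸ v.asIdeal) (A := Ideal.Quotient.mk v.asIdeal a)
    (B := Ideal.Quotient.mk v.asIdeal b) (fun h0 => h (by
      rw [← Ideal.Quotient.eq_zero_iff_mem, ← h0]
      simp only [map_mul, map_add, map_pow, map_ofNat]))
  rw [hcard] at h1
  exact h1

/-- the normalised trace of Frobenius -/
noncomputable def trV (a b : 𝓞 K) (v : HeightOneSpectrum (𝓞 K)) : ℝ :=
  ((nm v : ℝ) - ptsV a b v) / (2 * √(nm v))

lemma sqrt_nm_pos (v : HeightOneSpectrum (𝓞 K)) : 0 < √(nm v : ℝ) := by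
  have hp2 : (2 : ℝ) ≤ nm v := by exact_mod_cast two_le_nm v
  exact Real.sqrt_pos.2 (by linarith)

lemma trV_abs (h : GoodV a b v) : |trV a b v| ≤ 1 := by
  have h1 := sqrt_nm_pos v
  unfold trV
  rw [abs_div, abs_of_pos (by linarith : 0 < 2 * √(nm v : ℝ)), div_le_one (by linarith)]
  exact hasseV h

/-- the local roots -/
noncomputable def alV (a b : 𝓞 K) (v : {v // GoodV a b v}) : Fin 2 → ℂ := rt (trV a b v.1)

theorem curve_sys (a b : 𝓞 K) : Sys (fun v : {v // GoodV a b v} => nm v.1) (alV a b) :=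
  nf_sys _ _ (fun v i => rt_norm (trV_abs v.2) i) fun v => by
    have hp2 : (2 : ℝ) ≤ nm v.1 := by exact_mod_cast two_le_nm v.1
    unfold alV
    rw [rt_log (trV_abs v.2) hp2, Complex.ofReal_im]

theorem curve_cv (v : {v // GoodV a b v}) :
    cv (fun v : {v // GoodV a b v} => nm v.1) (alV a b) v =
      Real.log (((ptsV a b v.1 : ℝ) + 1) / nm v.1) := by
  have hp2 : (2 : ℝ) ≤ nm v.1 := by exact_mod_cast two_le_nm v.1
  have h1 := sqrt_nm_pos v.1
  unfold cv zv alV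
  rw [rt_log (trV_abs v.2) hp2, Complex.ofReal_re]
  congr 1
  have h2 : √(nm v.1 : ℝ) ^ 2 = nm v.1 := Real.sq_sqrt (by linarith)
  have h0 : (0 : ℝ) < nm v.1 := by linarith
  unfold trV
  have e1 : 2 * (((nm v.1 : ℝ) - ptsV a b v.1) / (2 * √(nm v.1 : ℝ))) / √(nm v.1 : ℝ) =
      ((nm v.1 : ℝ) - ptsV a b v.1) / (√(nm v.1 : ℝ) ^ 2) := by
    field_simp
  rw [e1, h2]
  field_simp
  ring

/-- the Euler factor of the curve -/
noncomputable def efV (a b : 𝓞 K) (v : HeightOneSpectrum (𝓞 K)) (s : ℂ) : ℂ :=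
  (1 - ((nm v : ℂ) - ptsV a b v) * (nm v : ℂ) ^ (-s) + (nm v : ℂ) ^ (1 - 2 * s))⁻¹

theorem curve_factor (v : {v // GoodV a b v}) (s : ℂ) :
    ∏ i, (1 - zv (fun v : {v // GoodV a b v} => nm v.1) (alV a b) v i *
      xv (fun v : {v // GoodV a b v} => nm v.1) v s)⁻¹ = efV a b v.1 (1 + s) := by
  have hp2 : (2 : ℝ) ≤ nm v.1 := by exact_mod_cast two_le_nm v.1
  have hn0 : (0 : ℝ) < nm v.1 := by linarith
  have h1 := sqrt_nm_pos v.1
  have h1c : ((√(nm v.1 : ℝ) : ℝ) : ℂ) ≠ 0 := by exact_mod_cast h1.ne'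
  have hnc : (nm v.1 : ℂ) ≠ 0 := by exact_mod_cast hn0.ne'
  have h2 : ((√(nm v.1 : ℝ) : ℝ) : ℂ) ^ 2 = nm v.1 := by
    rw [← Complex.ofReal_pow, Real.sq_sqrt hn0.le]
    push_cast
    rfl
  have hcp : ∀ w : ℂ, (nm v.1 : ℂ) ^ w = exp (w * Real.log (nm v.1)) := by
    intro w
    rw [Complex.cpow_def_of_ne_zero hnc, ← Complex.ofReal_natCast, ← Complex.ofReal_log hn0.le]
    congr 1
    ring
  set x : ℂ := xv (fun v : {v // GoodV a b v} => nm v.1) v s with hx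
  have hx' : x = exp (-(s * Real.log (nm v.1))) := rfl
  have e1 : (nm v.1 : ℂ) ^ (-(1 + s)) = x / nm v.1 := by
    have e2 : (nm v.1 : ℂ) ^ (-(1 + s)) = (nm v.1 : ℂ) ^ (-s) * (nm v.1 : ℂ) ^ (-(1 : ℂ)) := by
      rw [← Complex.cpow_add _ _ hnc]
      congr 1
      ring
    rw [e2, Complex.cpow_neg_one, hcp, hx', div_eq_mul_inv]
    congr 3
    ring
  have e2 : (nm v.1 : ℂ) ^ (1 - 2 * (1 + s)) = x ^ 2 / nm v.1 := by
    have e3 : (nm v.1 : ℂ) ^ (1 - 2 * (1 + s)) =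
        (nm v.1 : ℂ) ^ (-2 * s) * (nm v.1 : ℂ) ^ (-(1 : ℂ)) := by
      rw [← Complex.cpow_add _ _ hnc]
      congr 1
      ring
    rw [e3, Complex.cpow_neg_one, hcp, hx', div_eq_mul_inv, ← Complex.exp_nat_mul]
    congr 2
    push_cast
    ring
  unfold efV
  rw [e1, e2, Fin.prod_univ_two, ← mul_inv]
  congr 1
  unfold zv alV
  have e3 := rt_prod (trV_abs v.2) (x / ((√(nm v.1 : ℝ) : ℝ) : ℂ))
  have e4 : ∀ i, rt (trV a b v.1) i / ((√(nm v.1 : ℝ) : ℝ) : ℂ) * x =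
      rt (trV a b v.1) i * (x / ((√(nm v.1 : ℝ) : ℝ) : ℂ)) := fun i => by
    field_simp
  rw [e4, e4, e3]
  unfold trV
  rw [div_pow, h2]
  have e5 : 2 * (((((nm v.1 : ℝ) - ptsV a b v.1) / (2 * √(nm v.1 : ℝ)) : ℝ)) : ℂ) *
      (x / ((√(nm v.1 : ℝ) : ℝ) : ℂ)) = ((nm v.1 : ℂ) - ptsV a b v.1) * x /
        ((√(nm v.1 : ℝ) : ℝ) : ℂ) ^ 2 := by
    push_cast
    field_simp
  rw [e5, h2]
  ring

end curve

end Pool.Agent.TH942.ES
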