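import Pool.Agent.H21.L.R_seed8.TH942.ES.Sec
import Pool.Agent.H21.L.R_seed8.TH942.SL.Ext2

/-!
# Means of an Euler product and its analytic continuation
-/

set_option autoImplicit false

open Filter Topology Set Complex MeasureTheory
open Pool.Agent.TH942.LS (Dat P P_le Cont Qf)
open Pool.Agent.TH942.SL

namespace Pool.Agent.TH942.ES

variable {X : Type} {d : ℕ} {N : X → ℕ} {α : X → Fin d → ℂ} {Ψ : ℂ → ℂ} {e : X → ℕ}

/-- the Euler product -/
noncomputable def LE (N : X → ℕ) (α : X → Fin d → ℂ) (s : ℂ) : ℂ :=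
  ∏' v, ∏ i, (1 - zv N α v i * xv N v s)⁻¹

/-- the sum over the primes -/
noncomputable def DE (N : X → ℕ) (α : X → Fin d → ℂ) (s : ℂ) : ℂ :=
  ∑' v, (cv N α v : ℂ) * xv N v s

namespace Sys

variable (E : Sys N α)
include E

theorem hasProd {s : ℂ} (hs : 1 / 2 < s.re) :
    HasProd (fun v => ∏ i, (1 - zv N α v i * xv N v s)⁻¹) (exp (GG N α s - DE N α s)) := by
  have hs0 : 0 < s.re := by linarith
  have h1 := (E.gv_summable hs0).hasSum.sub (E.cx_summable hs).hasSum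
  have h2 := h1.cexp
  have h3 : (exp ∘ fun v => gv N α v s - (cv N α v : ℂ) * xv N v s) =
      fun v => ∏ i, (1 - zv N α v i * xv N v s)⁻¹ := by
    funext v
    simp only [Function.comp_apply]
    have e1 : gv N α v s - (cv N α v : ℂ) * xv N v s =
        ∑ i, -log (1 - zv N α v i * xv N v s) := by
      rw [E.cv_eq]
      unfold gv tz
      rw [Finset.sum_sub_distrib, ← Finset.mul_sum, Finset.sum_neg_distrib]
      ring
    rw [e1, Complex.exp_sum]
    refine Finset.prod_congr rfl fun i _ => ?_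
    rw [Complex.exp_neg, Complex.exp_log]
    exact slitPlane_ne_zero (one_sub_mem (E.zx_lt hs0.le v i))
  rw [h3] at h2
  exact h2

theorem LE_eq {s : ℂ} (hs : 1 / 2 < s.re) : LE N α s = exp (GG N α s - DE N α s) :=
  (E.hasProd hs).tprod_eq

theorem dat' (he : Function.Injective e) {σ : ℝ} (hσ : 1 / 2 < σ) :
    Dat (lamN N e) (cN N α e) (Real.log 2) σ where
  δ0 := (E.dat he).δ0
  σ0 := by linarith
  lam_ge := (E.dat he).lam_ge
  sum := by
    rw [summable_cN he (fun c l => |c| * Real.exp (-(σ * l))) (fun l => by simp)]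
    refine Summable.of_nonneg_of_le (fun v => by positivity) (fun v => ?_)
      ((E.sum (1 / 2 + σ) (by linarith)).mul_left (4 * (d : ℝ)))
    have h1 : Real.exp (-(σ * Real.log (N v))) = (N v : ℝ) ^ (-σ) := by
      rw [Real.rpow_def_of_pos (E.Npos v)]
      congr 1
      ring
    rw [h1]
    calc |cv N α v| * (N v : ℝ) ^ (-σ) ≤
          (4 * d * (N v : ℝ) ^ (-(1 / 2 : ℝ))) * (N v : ℝ) ^ (-σ) :=
          mul_le_mul_of_nonneg_right (E.cv_abs v) (by positivity)
      _ = _ := by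
        rw [mul_assoc, ← Real.rpow_add (E.Npos v)]
        congr 2
        ring

theorem DE_diff {s : ℂ} (hs : 1 / 2 < s.re) : DifferentiableAt ℂ (DE N α) s := by
  have := E.cnt
  obtain ⟨e, he⟩ := Countable.exists_injective_nat X
  obtain ⟨σ, h1, h2⟩ := exists_between hs
  have h3 := (dd_deriv (E.dat' he h1) h2).differentiableAt
  have h4 : DD (lamN N e) (cN N α e) = DE N α := funext fun s => DD_eq he s
  rwa [h4] at h3

theorem LE_diff {s : ℂ} (hs : 1 / 2 < s.re) :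
    DifferentiableAt ℂ (LE N α) s ∧ LE N α s ≠ 0 := by
  constructor
  · have ho : IsOpen {z : ℂ | 1 / 2 < z.re} := isOpen_lt continuous_const Complex.continuous_re
    refine DifferentiableAt.congr_of_eventuallyEq (f := fun s => exp (GG N α s - DE N α s)) ?_ ?_
    · exact ((E.GG_diff (by linarith)).sub (E.DE_diff hs)).cexp
    · filter_upwards [ho.mem_nhds hs] with z hz
      exact E.LE_eq hz
  · rw [E.LE_eq hs]
    exact Complex.exp_ne_zero _

omit E in
/-- two functions holomorphic in a sector which agree to the right of `1/2` -/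
theorem agree {ρ : ℝ} (hρ : 1 < ρ) {G₁ G₂ : ℂ → ℂ}
    (h₁ : ∀ s ∈ Sect ρ, DifferentiableAt ℂ G₁ s) (h₂ : ∀ s ∈ Sect ρ, DifferentiableAt ℂ G₂ s)
    {σ : ℝ} (h : ∀ s ∈ Sect ρ, σ < s.re → G₁ s = G₂ s) : ∀ s ∈ Sect ρ, G₁ s = G₂ s := by
  have a1 : AnalyticOnNhd ℂ G₁ (Sect ρ) :=
    DifferentiableOn.analyticOnNhd (fun s hs => (h₁ s hs).differentiableWithinAt) (sect_open hρ)
  have a2 : AnalyticOnNhd ℂ G₂ (Sect ρ) :=
    DifferentiableOn.analyticOnNhd (fun s hs => (h₂ s hs).differentiableWithinAt) (sect_open hρ)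
  have hx0 : 0 < |σ| + 1 := by positivity
  have hx : ((|σ| + 1 : ℝ) : ℂ) ∈ Sect ρ := sect_real hρ hx0
  have ho : IsOpen {z : ℂ | σ < z.re} := isOpen_lt continuous_const Complex.continuous_re
  exact a1.eqOn_of_preconnected_of_eventuallyEq a2 (sect_convex hρ).isPreconnected hx (by
    filter_upwards [(sect_open hρ).mem_nhds hx, ho.mem_nhds (show σ < ((|σ| + 1 : ℝ) : ℂ).re by
      rw [Complex.ofReal_re]
      have := le_abs_self σ
      linarith)] with z hz hz2
    exact h z hz hz2)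

omit E in
lemma pow_log {ρ y : ℝ} (hρ : 1 < ρ) (hy : 0 ≤ y) :
    Real.log (Real.exp (y ^ ρ⁻¹)) ^ ρ = y := by
  rw [Real.log_exp, ← Real.rpow_mul hy, inv_mul_cancel₀ (by linarith), Real.rpow_one]

omit E in
lemma tendsto_exp_rpow {ρ : ℝ} (hρ : 1 < ρ) :
    Tendsto (fun y : ℝ => Real.exp (y ^ ρ⁻¹)) atTop atTop :=
  Real.tendsto_exp_atTop.comp (tendsto_rpow_atTop (by positivity))

/-- **Slow growth of the means gives the continuation.** -/
theorem cont_of_small {ρ ρ' : ℝ} (hρ : 1 < ρ) (hρ' : ρ < ρ')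
    (h : ∀ ε : ℝ, 0 < ε → ∃ C : ℝ, ∀ᶠ Y : ℝ in atTop,
      |SrE N α ρ ρ' Y| ≤ C * Real.exp (ε * Real.log Y ^ ρ)) :
    ∃ G : ℂ → ℂ, (∀ s : ℂ, s ∈ Sect ρ ∨ 1 / 2 < s.re → DifferentiableAt ℂ G s ∧ G s ≠ 0) ∧
      (∀ s : ℂ, 1 / 2 < s.re → G s = LE N α s) ∧
      ∀ K C : ℝ, (∀ᶠ Y : ℝ in atTop, |SrE N α ρ ρ' Y - K * Real.log (Real.log Y)| ≤ C) →
        ∃ A B : ℝ, 0 < A ∧ 0 < B ∧ ∀ x : ℝ, 0 < x → x ≤ 1 →
          A * x ^ K ≤ ‖G x‖ ∧ ‖G x‖ ≤ B * x ^ K := by
  have := E.cnt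
  obtain ⟨e, he⟩ := Countable.exists_injective_nat X
  have hρ0 : 0 < ρ := by linarith
  obtain ⟨C₁, hC₁, h1⟩ := E.Sr_close he hρ hρ'
  have h1' := (tendsto_exp_rpow hρ).eventually h1
  obtain ⟨Dh, hDd, hDe, hDa⟩ := ext_sector (E.dat he) hρ (fun ε hε => by
    obtain ⟨C, hC⟩ := h ε hε
    have hC' := (tendsto_exp_rpow hρ).eventually hC
    obtain ⟨y₀, hy₀⟩ := (h1'.and (hC'.and (eventually_ge_atTop 0))).exists_forall_of_atTop
    refine ⟨|C| + C₁, y₀, fun y hy => ?_⟩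
    obtain ⟨e1, e2, e3⟩ := hy₀ y hy
    rw [pow_log hρ e3] at e1 e2
    have e4 : 1 ≤ Real.exp (ε * y) := Real.one_le_exp (by positivity)
    have e5 : C * Real.exp (ε * y) ≤ |C| * Real.exp (ε * y) :=
      mul_le_mul_of_nonneg_right (le_abs_self C) (Real.exp_pos _).le
    have e6 : C₁ ≤ C₁ * Real.exp (ε * y) := le_mul_of_one_le_right hC₁ e4
    have e7 := abs_sub_abs_le_abs_sub (M (lamN N e) (cN N α e) ρ⁻¹ y)
      (SrE N α ρ ρ' (Real.exp (y ^ ρ⁻¹)))
    rw [abs_sub_comm] at e7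
    rw [add_mul]
    linarith)
  -- the equality to the right of `1/2`
  have hDE : ∀ s ∈ Sect ρ, 1 / 2 < s.re → Dh s = DE N α s := by
    set R : Set ℂ := Sect ρ ∩ {s : ℂ | 1 / 2 < s.re} with hR
    have hRo : IsOpen R := (sect_open hρ).inter (isOpen_lt continuous_const Complex.continuous_re)
    have hRc : Convex ℝ R := (sect_convex hρ).inter (convex_halfSpace_re_gt _)
    have a1 : AnalyticOnNhd ℂ Dh R :=
      DifferentiableOn.analyticOnNhd (fun s hs => (hDd s hs.1).differentiableWithinAt) hRo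
    have a2 : AnalyticOnNhd ℂ (DE N α) R :=
      DifferentiableOn.analyticOnNhd (fun s hs => (E.DE_diff hs.2).differentiableWithinAt) hRo
    have h2 : ((2 : ℝ) : ℂ) ∈ R := ⟨sect_real hρ (by norm_num), by
      change 1 / 2 < ((2 : ℝ) : ℂ).re
      rw [Complex.ofReal_re]
      norm_num⟩
    have ho : IsOpen {z : ℂ | 1 < z.re} := isOpen_lt continuous_const Complex.continuous_re
    have a3 := a1.eqOn_of_preconnected_of_eventuallyEq a2 hRc.isPreconnected h2 (by
      filter_upwards [hRo.mem_nhds h2, ho.mem_nhds (show 1 < ((2 : ℝ) : ℂ).re by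
        rw [Complex.ofReal_re]
        norm_num)] with z hz hz2
      rw [hDe z hz.1 hz2]
      exact DD_eq he z)
    exact fun s hs hs2 => a3 ⟨hs, hs2⟩
  set G : ℂ → ℂ := fun s => if 1 / 2 < s.re then LE N α s else exp (GG N α s - Dh s) with hG
  have hG1 : ∀ s : ℂ, 1 / 2 < s.re → G s = LE N α s := fun s hs => by
    rw [hG]
    simp only
    rw [if_pos hs]
  have hG2 : ∀ s ∈ Sect ρ, G s = exp (GG N α s - Dh s) := fun s hs => by
    by_cases h2 : 1 / 2 < s.re
    · rw [hG1 s h2, E.LE_eq h2, hDE s hs h2]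
    · rw [hG]
      simp only
      rw [if_neg h2]
  refine ⟨G, fun s hs => ?_, hG1, fun K C hK => ?_⟩
  · rcases hs with hs | hs
    · constructor
      · refine DifferentiableAt.congr_of_eventuallyEq (f := fun s => exp (GG N α s - Dh s)) ?_ ?_
        · exact ((E.GG_diff (sect_re hρ hs)).sub (hDd s hs)).cexp
        · filter_upwards [(sect_open hρ).mem_nhds hs] with z hz
          exact hG2 z hz
      · rw [hG2 s hs]
        exact Complex.exp_ne_zero _
    · have ho : IsOpen {z : ℂ | 1 / 2 < z.re} := isOpen_lt continuous_const Complex.continuous_re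
      obtain ⟨e1, e2⟩ := E.LE_diff hs
      refine ⟨e1.congr_of_eventuallyEq ?_, by rw [hG1 s hs]; exact e2⟩
      filter_upwards [ho.mem_nhds hs] with z hz
      exact hG1 z hz
  · -- the behaviour near the vertex
    have hK' := (tendsto_exp_rpow hρ).eventually hK
    obtain ⟨y₀, hy₀⟩ := (h1'.and (hK'.and (eventually_gt_atTop 0))).exists_forall_of_atTop
    obtain ⟨C₂, hC₂⟩ := hDa (K * ρ⁻¹) (C + C₁) y₀ (fun y hy => by
      obtain ⟨e1, e2, e3⟩ := hy₀ y hy
      rw [pow_log hρ e3.le] at e1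
      rw [Real.log_exp, Real.log_rpow e3] at e2
      have e7 := abs_sub_le (M (lamN N e) (cN N α e) ρ⁻¹ y)
        (SrE N α ρ ρ' (Real.exp (y ^ ρ⁻¹))) (K * ρ⁻¹ * Real.log y)
      rw [abs_sub_comm] at e1
      rw [mul_assoc] at e7 ⊢
      linarith)
    obtain ⟨C₃, hC₃⟩ := E.GG_sector (K := 1) one_pos
    refine ⟨Real.exp (-(C₂ + C₃)), Real.exp (C₂ + C₃), Real.exp_pos _, Real.exp_pos _,
      fun x hx hx1 => ?_⟩
    have e1 := hC₂ x hx hx1
    have e2 := hC₃ x (by rwa [Complex.ofReal_re]) (by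
      rw [Complex.norm_real, Complex.ofReal_re, Real.norm_eq_abs, abs_of_pos hx, one_mul])
    have e3 : K * ρ⁻¹ * ρ = K := by field_simp
    rw [e3] at e1
    have e4 := (abs_le.1 ((Complex.abs_re_le_norm _).trans e1))
    have e5 := (abs_le.1 ((Complex.abs_re_le_norm _).trans e2))
    rw [Complex.add_re, Complex.ofReal_re] at e4
    rw [hG2 x (sect_real hρ hx), Complex.norm_exp, Complex.sub_re,
      Real.rpow_def_of_pos hx, ← Real.exp_add, ← Real.exp_add, Real.exp_le_exp, Real.exp_le_exp]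
    constructor <;> linarith [e4.1, e4.2, e5.1, e5.2]

/-- **The continuation implies slow growth of the means.** -/
theorem small_of_cont {ρ ρ' : ℝ} (hρ : 1 < ρ) (hρ' : ρ < ρ') {G : ℂ → ℂ}
    (hd : ∀ s ∈ Sect ρ, DifferentiableAt ℂ G s) (h0 : ∀ s ∈ Sect ρ, G s ≠ 0)
    {σ : ℝ} (he' : ∀ s ∈ Sect ρ, σ < s.re → G s = LE N α s) {ε : ℝ} (hε : 0 < ε) :
    ∃ C : ℝ, ∀ᶠ Y : ℝ in atTop, |SrE N α ρ ρ' Y| ≤ C * Real.exp (ε * Real.log Y ^ ρ) := by
  have := E.cnt
  obtain ⟨e, he⟩ := Countable.exists_injective_nat X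
  have hρ0 : 0 < ρ := by linarith
  have ho : IsOpen {z : ℂ | 0 < z.re} := isOpen_lt continuous_const Complex.continuous_re
  -- the primitive
  have hGan : ∀ s ∈ Sect ρ, AnalyticAt ℂ G s := fun s hs => by
    have h1 : DifferentiableOn ℂ G (Sect ρ) := fun z hz => (hd z hz).differentiableWithinAt
    exact h1.analyticAt ((sect_open hρ).mem_nhds hs)
  have hGGan : ∀ s ∈ Sect ρ, AnalyticAt ℂ (GG N α) s := fun s hs => by
    have h1 : DifferentiableOn ℂ (GG N α) {z : ℂ | 0 < z.re} := fun z hz =>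
      (E.GG_diff hz).differentiableWithinAt
    exact h1.analyticAt (ho.mem_nhds (sect_re hρ hs))
  set q : ℂ → ℂ := fun s => deriv (GG N α) s - deriv G s / G s with hq
  have hqd : DifferentiableOn ℂ q (Sect ρ) := fun s hs =>
    (((hGGan s hs).deriv.differentiableAt).sub
      ((hGan s hs).deriv.differentiableAt.div (hd s hs) (h0 s hs))).differentiableWithinAt
  obtain ⟨F, hF⟩ := convex_primitive (sect_open hρ) (sect_convex hρ) hqd
  -- comparison with the sum
  set τ : ℝ := max σ 1 with hτ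
  set R : Set ℂ := Sect ρ ∩ {s : ℂ | τ < s.re} with hR
  have hRo : IsOpen R := (sect_open hρ).inter (isOpen_lt continuous_const Complex.continuous_re)
  have hRc : Convex ℝ R := (sect_convex hρ).inter (convex_halfSpace_re_gt _)
  have hRx : ∀ s ∈ R, s ∈ Sect ρ ∧ σ < s.re ∧ 1 < s.re := fun s hs =>
    ⟨hs.1, lt_of_le_of_lt (le_max_left _ _) hs.2, lt_of_le_of_lt (le_max_right _ _) hs.2⟩
  have hcon : ∀ s ∈ R, HasDerivAt (fun s => F s - DE N α s) 0 s := by
    intro s hs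
    obtain ⟨e1, e2, e3⟩ := hRx s hs
    have e4 := (E.DE_diff (s := s) (by linarith)).hasDerivAt
    refine ((hF s e1).sub e4).congr_deriv ?_
    have e5 : G =ᶠ[𝓝 s] fun s => exp (GG N α s - DE N α s) := by
      filter_upwards [hRo.mem_nhds hs] with z hz
      obtain ⟨f1, f2, f3⟩ := hRx z hz
      rw [he' z f1 f2, E.LE_eq (by linarith)]
    have e6 : HasDerivAt (fun s => exp (GG N α s - DE N α s))
        (exp (GG N α s - DE N α s) * (deriv (GG N α) s - deriv (DE N α) s)) s :=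
      ((E.GG_diff (sect_re hρ e1)).hasDerivAt.sub e4).cexp
    rw [hq]
    simp only
    rw [e5.deriv_eq, e5.eq_of_nhds, e6.deriv]
    have := Complex.exp_ne_zero (GG N α s - DE N α s)
    field_simp
    ring
  set w₀ : ℂ := ((τ + 1 : ℝ) : ℂ) with hw₀
  have hτ1 : 1 ≤ τ := le_max_right _ _
  have hw₀R : w₀ ∈ R := ⟨sect_real hρ (by linarith), by
    change τ < w₀.re
    rw [hw₀, Complex.ofReal_re]
    linarith⟩
  have hconst : ∀ s ∈ R, F s - DE N α s = F w₀ - DE N α w₀ := fun s hs =>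
    hRc.is_const_of_fderivWithin_eq_zero (𝕜 := ℂ) (f := fun s => F s - DE N α s)
      (fun z hz => (hcon z hz).differentiableAt.differentiableWithinAt) (fun z hz => by
        rw [fderivWithin_of_isOpen hRo hz]
        ext
        simp [(hcon z hz).deriv]) hs hw₀R
  set k : ℂ := F w₀ - DE N α w₀ with hk
  obtain ⟨C, hC⟩ := up_ext (E.dat' (σ := τ) he (by linarith)) hρ (Dh := fun s => F s - k)
    (fun s hs => (hF s hs).differentiableAt.sub_const _)
    (fun s hs hs2 => by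
      have e1 := hconst s ⟨hs, hs2⟩
      rw [DD_eq he]
      change F s - k = DE N α s
      rw [← e1]
      ring) hε
  obtain ⟨C₁, hC₁, h1⟩ := E.Sr_close he hρ hρ'
  refine ⟨C + C₁, ?_⟩
  filter_upwards [h1, Real.tendsto_log_atTop.eventually_ge_atTop 1] with Y h3 h4
  have hT : 0 < Real.log Y := by linarith
  have hy : 1 ≤ Real.log Y ^ ρ := Real.one_le_rpow h4 hρ0.le
  have h5 := hC _ hy
  have e1 : 1 ≤ Real.exp (ε * Real.log Y ^ ρ) := Real.one_le_exp (by positivity)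
  have e4 : C₁ ≤ C₁ * Real.exp (ε * Real.log Y ^ ρ) := le_mul_of_one_le_right hC₁ e1
  have e5 := abs_sub_abs_le_abs_sub (SrE N α ρ ρ' Y)
    (M (lamN N e) (cN N α e) ρ⁻¹ (Real.log Y ^ ρ))
  rw [add_mul]
  linarith

omit E in
lemma exists_sect {s : ℂ} (hs : 0 < s.re) : ∃ n : ℕ, s ∈ Sect (1 + 1 / ((n : ℝ) + 1)) := by
  have hpi := Real.pi_pos
  have h1 : |arg s| < Real.pi / 2 := Complex.abs_arg_lt_pi_div_two_iff.2 (Or.inl hs)
  have h2 : Tendsto (fun n : ℕ => Real.pi / (2 * (1 + 1 / ((n : ℝ) + 1)))) atTop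
      (𝓝 (Real.pi / (2 * (1 + 0)))) := by
    refine Tendsto.div tendsto_const_nhds ?_ (by norm_num)
    exact (tendsto_const_nhds.add tendsto_one_div_add_atTop_nhds_zero_nat).const_mul 2
  rw [add_zero, mul_one] at h2
  obtain ⟨n, hn⟩ := (h2.eventually (lt_mem_nhds h1)).exists
  exact ⟨n, ne_zero' hs, hn⟩

omit E in
/-- **Gluing the continuations to the sectors.** -/
theorem glue {L : ℂ → ℂ}
    (h : ∀ ρ : ℝ, 1 < ρ → ∃ G : ℂ → ℂ, (∀ s ∈ Sect ρ, DifferentiableAt ℂ G s ∧ G s ≠ 0) ∧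
      ∀ s ∈ Sect ρ, 1 / 2 < s.re → G s = L s) :
    ∃ G : ℂ → ℂ, (∀ s : ℂ, 0 < s.re → DifferentiableAt ℂ G s ∧ G s ≠ 0) ∧
      (∀ s : ℂ, 1 / 2 < s.re → G s = L s) := by
  classical
  set r : ℕ → ℝ := fun n => 1 + 1 / ((n : ℝ) + 1) with hr
  have hr1 : ∀ n, 1 < r n := fun n => by
    have : (0 : ℝ) < 1 / ((n : ℝ) + 1) := by positivity
    rw [hr]
    simp only
    linarith
  have hrm : ∀ m n : ℕ, m ≤ n → r n ≤ r m := fun m n hmn => by
    have : (m : ℝ) ≤ n := by exact_mod_cast hmn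
    rw [hr]
    simp only
    have h3 : 1 / ((n : ℝ) + 1) ≤ 1 / ((m : ℝ) + 1) := by
      apply one_div_le_one_div_of_le (by positivity)
      linarith
    linarith
  choose G hG1 hG2 using fun n : ℕ => h (r n) (hr1 n)
  -- compatibility
  have hcomp : ∀ m n : ℕ, m ≤ n → ∀ s ∈ Sect (r m), G m s = G n s := by
    intro m n hmn
    have hsub := sect_mono (hr1 n) (hrm m n hmn)
    exact agree (hr1 m) (fun s hs => (hG1 m s hs).1) (fun s hs => (hG1 n s (hsub hs)).1)
      (σ := 1 / 2) fun s hs h2 => by rw [hG2 m s hs h2, hG2 n s (hsub hs) h2]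
  set H : ℂ → ℂ := fun s => if hs : ∃ n : ℕ, s ∈ Sect (r n) then G (Nat.find hs) s else 0 with hH
  have hHG : ∀ n : ℕ, ∀ s ∈ Sect (r n), H s = G n s := by
    intro n s hs
    have h1 : ∃ n : ℕ, s ∈ Sect (r n) := ⟨n, hs⟩
    rw [hH]
    simp only
    rw [dif_pos h1]
    exact hcomp _ _ (Nat.find_min' h1 hs) _ (Nat.find_spec h1)
  refine ⟨H, fun s hs => ?_, fun s hs => ?_⟩
  · obtain ⟨n, hn⟩ := exists_sect hs
    obtain ⟨e1, e2⟩ := hG1 n s hn
    refine ⟨e1.congr_of_eventuallyEq ?_, by rw [hHG n s hn]; exact e2⟩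
    filter_upwards [(sect_open (hr1 n)).mem_nhds hn] with z hz
    exact hHG n z hz
  · obtain ⟨n, hn⟩ := exists_sect (s := s) (by linarith)
    rw [hHG n s hn]
    exact hG2 n s hn hs

end Sys

end Pool.Agent.TH942.ES
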