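import Pool.Agent.H21.L.R_seed8.TH942.ES.Cont

/-!
# Sectorial means of an Euler product
-/

set_option autoImplicit false

open Filter Topology Set Complex MeasureTheory
open Pool.Agent.TH942.LS (Dat P P_le Cont Qf)
open Pool.Agent.TH942.SL

namespace Pool.Agent.TH942.ES

variable {X : Type} {d : ℕ} {N : X → ℕ} {α : X → Fin d → ℂ} {Ψ : ℂ → ℂ} {e : X → ℕ}

/-- the finite sum -/
noncomputable def SrE (N : X → ℕ) (α : X → Fin d → ℂ) (ρ ρ' Y : ℝ) : ℝ :=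
  ∑ᶠ (v : X) (_ : (N v : ℝ) ≤ Real.exp (Real.log Y ^ ρ')),
    wml ρ⁻¹ (Real.log (N v) / Real.log Y) * cv N α v

namespace Sys

variable (E : Sys N α)
include E

lemma fin_le (Y : ℝ) : {v : X | (N v : ℝ) ≤ Y}.Finite := by
  have h1 := (E.sum 2 (by norm_num)).tendsto_cofinite_zero
  have h2 : 0 < (max Y 1) ^ (-(2 : ℝ)) / 2 := by positivity
  have h3 := h1.eventually (gt_mem_nhds h2)
  rw [Filter.eventually_cofinite] at h3
  refine h3.subset fun v hv => ?_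
  simp only [not_lt, Set.mem_ofPred_eq] at hv ⊢
  have h4 : (N v : ℝ) ≤ max Y 1 := hv.trans (le_max_left _ _)
  have h5 : (max Y 1) ^ (-(2 : ℝ)) ≤ (N v : ℝ) ^ (-(2 : ℝ)) :=
    Real.rpow_le_rpow_of_nonpos (E.Npos v) h4 (by norm_num)
  linarith

theorem Sr_close (he : Function.Injective e) {ρ ρ' : ℝ} (hρ : 1 < ρ) (hρ' : ρ < ρ') :
    ∃ C : ℝ, 0 ≤ C ∧ ∀ᶠ Y : ℝ in atTop,
      |SrE N α ρ ρ' Y - M (lamN N e) (cN N α e) ρ⁻¹ (Real.log Y ^ ρ)| ≤ C := by
  have h0 : 0 < ρ⁻¹ := by positivity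
  have h1 : ρ⁻¹ < 1 := inv_lt_one_of_one_lt₀ hρ
  have hρ0 : 0 < ρ := by linarith
  obtain ⟨B, C, hB, hC, h⟩ := M_finite (E.dat he) h0 h1
  refine ⟨C, hC, ?_⟩
  have h2 : ∀ᶠ T : ℝ in atTop, B * T ^ ρ ≤ T ^ ρ' := by
    have e1 : Tendsto (fun T : ℝ => T ^ (ρ' - ρ)) atTop atTop :=
      tendsto_rpow_atTop (by linarith)
    filter_upwards [e1.eventually_ge_atTop B, eventually_gt_atTop 0] with T h3 h4
    have e2 : T ^ ρ' = T ^ (ρ' - ρ) * T ^ ρ := by
      rw [← Real.rpow_add h4]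
      congr 1
      ring
    rw [e2]
    have : 0 < T ^ ρ := Real.rpow_pos_of_pos h4 _
    gcongr
  filter_upwards [Real.tendsto_log_atTop.eventually h2, eventually_gt_atTop 1] with Y h3 h4
  have hT : 0 < Real.log Y := Real.log_pos h4
  have hy : 0 < Real.log Y ^ ρ := Real.rpow_pos_of_pos hT _
  have hfin := E.fin_le (Real.exp (Real.log Y ^ ρ'))
  classical
  have e1 := h (Real.log Y ^ ρ) (hfin.toFinset.image e) hy ?_
  · rw [abs_sub_comm] at e1
    have e2 : SrE N α ρ ρ' Y = ∑ n ∈ hfin.toFinset.image e,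
        cN N α e n * wml ρ⁻¹ (lamN N e n * (Real.log Y ^ ρ) ^ (-ρ⁻¹)) := by
      have e3 : (Real.log Y ^ ρ) ^ (-ρ⁻¹) = (Real.log Y)⁻¹ := by
        rw [← Real.rpow_mul hT.le]
        have : ρ * -ρ⁻¹ = -1 := by field_simp
        rw [this, Real.rpow_neg_one]
      have e4 : SrE N α ρ ρ' Y = ∑ v ∈ hfin.toFinset,
          wml ρ⁻¹ (Real.log (N v) / Real.log Y) * cv N α v :=
        finsum_mem_eq_finite_toFinset_sum
          (fun v => wml ρ⁻¹ (Real.log (N v) / Real.log Y) * cv N α v) hfin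
      rw [Finset.sum_image he.injOn, e4]
      refine Finset.sum_congr rfl fun v _ => ?_
      rw [e3, lamN_apply he, cN_apply he, ← div_eq_mul_inv, mul_comm]
    rw [e2]
    exact e1
  · intro n hn
    by_cases hr : n ∈ Set.range e
    · obtain ⟨v, rfl⟩ := hr
      right
      have h5 : v ∉ hfin.toFinset := fun h => hn (Finset.mem_image_of_mem e h)
      rw [Set.Finite.mem_toFinset, Set.mem_ofPred_eq, not_le] at h5
      rw [lamN_apply he]
      refine h3.trans ?_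
      rw [Real.le_log_iff_exp_le (E.Npos v)]
      exact h5.le
    · left
      exact cN_zero hr

/-- **zero-free sectors imply the asymptotic formula** -/
theorem Sr_up (H : Con N α Ψ) {ρ ρ' : ℝ} (hρ : 1 < ρ) (hρ' : ρ < ρ') {m : ℕ}
    (hm : Pool.Agent.W263.BSD.OrdZero Ψ m)
    (hz : ∀ s : ℂ, s ≠ 0 → |s.arg| < Real.pi / (2 * ρ) → Ψ s ≠ 0) :
    ∃ C : ℝ, 0 ≤ C ∧ ∀ᶠ Y : ℝ in atTop,
      |SrE N α ρ ρ' Y - m * Real.log (Real.log Y)| ≤ C := by
  have := E.cnt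
  obtain ⟨e, he⟩ := Countable.exists_injective_nat X
  have hρ0 : 0 < ρ := by linarith
  have h0 : 0 < ρ⁻¹ := by positivity
  have h1 : ρ⁻¹ < 1 := inv_lt_one_of_one_lt₀ hρ
  have hk := kap_pos h0 h1
  obtain ⟨C₁, hG, hK⟩ := E.sector_bounds hk (kap_le_one _)
  obtain ⟨r, C₂, hr, hΨ⟩ := log_deriv_zero hm
  obtain ⟨C₃, hC₃⟩ := up (E.dat he) (E.cont he H) h0 h1 (fun v hv => by
      have hre := re_pow_pos h0 h1 hv
      refine hz _ (ne_zero' hre) ?_
      have := arg_pow h0 h1 hv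
      refine this.trans_le (le_of_eq ?_)
      field_simp) (m := m) (r := r) (C := max C₁ C₂) hr (G := GG N α)
    (fun s hs => (E.GG_diff hs).hasDerivAt)
    (fun s hs hs2 _ => (hG s hs hs2).trans (le_max_left _ _))
    (fun s hs hs2 _ => (hK s hs hs2).trans
      (div_le_div_of_nonneg_right (le_max_left _ _) (norm_nonneg _)))
    (fun s hs _ hs3 => by
      have := hΨ s (ne_zero' hs) hs3
      exact (by simpa using this : ‖_‖ ≤ C₂).trans (le_max_right _ _))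
  obtain ⟨C₄, hC₄, h5⟩ := E.Sr_close he hρ hρ'
  refine ⟨C₄ + |C₃|, by positivity, ?_⟩
  filter_upwards [h5, Real.tendsto_log_atTop.eventually_ge_atTop 1] with Y h3 h4
  have hT : 0 < Real.log Y := by linarith
  have h5 := hC₃ (Real.log Y ^ ρ) (Real.one_le_rpow h4 hρ0.le)
  have e1 : (m : ℝ) * ρ⁻¹ * Real.log (Real.log Y ^ ρ) = m * Real.log (Real.log Y) := by
    rw [Real.log_rpow hT]
    field_simp
  rw [e1] at h5
  have h6 := abs_sub_le (SrE N α ρ ρ' Y) (M (lamN N e) (cN N α e) ρ⁻¹ (Real.log Y ^ ρ))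
    (m * Real.log (Real.log Y))
  have h7 := le_abs_self C₃
  linarith

/-- **zeros in the sector force large sums** -/
theorem Sr_down (H : Con N α Ψ) {ρ ρ' : ℝ} (hρ : 1 < ρ) (hρ' : ρ < ρ') {s : ℂ}
    (hs1 : s ≠ 0) (hs : |s.arg| < Real.pi / (2 * ρ)) (h0 : Ψ s = 0) {β : ℝ}
    (hβ : β < (s ^ (ρ : ℂ)).re) (C : ℝ) :
    ∃ᶠ Y : ℝ in atTop, C * Real.exp (β * Real.log Y ^ ρ) < |SrE N α ρ ρ' Y| := by
  have := E.cnt
  obtain ⟨e, he⟩ := Countable.exists_injective_nat X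
  have hρ0 : 0 < ρ := by linarith
  have h0' : 0 < ρ⁻¹ := by positivity
  have h1' : ρ⁻¹ < 1 := inv_lt_one_of_one_lt₀ hρ
  rw [Filter.Frequently]
  intro hne
  obtain ⟨C₁, hC₁, h1⟩ := E.Sr_close he hρ hρ'
  obtain ⟨h2, h2'⟩ := exists_root hρ hs1 hs
  have hβ' : max β 0 < (s ^ (ρ : ℂ)).re := max_lt hβ h2
  have h3 : ∀ᶠ Y : ℝ in atTop, |M (lamN N e) (cN N α e) ρ⁻¹ (Real.log Y ^ ρ)| ≤
      (|C| + C₁) * Real.exp (max β 0 * Real.log Y ^ ρ) := by
    filter_upwards [hne, h1, eventually_gt_atTop 1] with Y h4 h5 h6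
    rw [not_lt] at h4
    have hT : 0 < Real.log Y := Real.log_pos h6
    have hy : 0 < Real.log Y ^ ρ := Real.rpow_pos_of_pos hT _
    have e1 : 1 ≤ Real.exp (max β 0 * Real.log Y ^ ρ) :=
      Real.one_le_exp (mul_nonneg (le_max_right _ _) hy.le)
    have e2 : Real.exp (β * Real.log Y ^ ρ) ≤ Real.exp (max β 0 * Real.log Y ^ ρ) :=
      Real.exp_le_exp.2 (mul_le_mul_of_nonneg_right (le_max_left _ _) hy.le)
    have e3 : C * Real.exp (β * Real.log Y ^ ρ) ≤ |C| * Real.exp (max β 0 * Real.log Y ^ ρ) :=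
      mul_le_mul (le_abs_self C) e2 (Real.exp_pos _).le (abs_nonneg _)
    have e4 : C₁ ≤ C₁ * Real.exp (max β 0 * Real.log Y ^ ρ) := le_mul_of_one_le_right hC₁ e1
    have e5 := abs_sub_abs_le_abs_sub (M (lamN N e) (cN N α e) ρ⁻¹ (Real.log Y ^ ρ))
      (SrE N α ρ ρ' Y)
    rw [abs_sub_comm] at e5
    rw [add_mul]
    linarith
  obtain ⟨X₀, hX₀⟩ := h3.exists_forall_of_atTop
  -- `y = (log Y)^ρ` takes all large values
  have key : ∀ y : ℝ, max 1 (max 0 (Real.log (max X₀ 1)) ^ ρ) ≤ y →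
      |M (lamN N e) (cN N α e) ρ⁻¹ y| ≤ (|C| + C₁) * Real.exp (max β 0 * y) := by
    intro y hy
    have hy1 : 1 ≤ y := (le_max_left _ _).trans hy
    have hy0 : 0 < y := by linarith
    have hy2 : max 0 (Real.log (max X₀ 1)) ^ ρ ≤ y := (le_max_right _ _).trans hy
    have e1 : Real.log (Real.exp (y ^ ρ⁻¹)) ^ ρ = y := by
      rw [Real.log_exp, ← Real.rpow_mul hy0.le, inv_mul_cancel₀ hρ0.ne', Real.rpow_one]
    have e2 : X₀ ≤ Real.exp (y ^ ρ⁻¹) := by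
      have e3 : max 0 (Real.log (max X₀ 1)) ≤ y ^ ρ⁻¹ := by
        have := Real.rpow_le_rpow (by positivity) hy2 (by positivity : 0 ≤ ρ⁻¹)
        rwa [← Real.rpow_mul (le_max_left _ _), mul_inv_cancel₀ hρ0.ne', Real.rpow_one] at this
      have e4 : Real.log (max X₀ 1) ≤ y ^ ρ⁻¹ := (le_max_right _ _).trans e3
      rw [Real.log_le_iff_le_exp (lt_max_of_lt_right one_pos)] at e4
      exact (le_max_left _ _).trans e4
    have := hX₀ _ e2
    rwa [e1] at this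
  refine down (E.dat he) (E.cont he H) h0' h1' (le_max_right _ _) key hβ' ?_
  rw [h2']
  exact h0

/-- sums which are `O (log log Y)` force a zero-free sector -/
theorem sector_of_small (H : Con N α Ψ) {ρ ρ' : ℝ} (hρ : 1 < ρ) (hρ' : ρ < ρ') {K : ℝ}
    (h : ∀ᶠ Y : ℝ in atTop, |SrE N α ρ ρ' Y| ≤ K * Real.log (Real.log Y)) :
    ∀ s : ℂ, s ≠ 0 → |s.arg| < Real.pi / (2 * ρ) → Ψ s ≠ 0 := by
  intro s hs1 hs h0
  have hρ0 : 0 < ρ := by linarith
  obtain ⟨h2, -⟩ := exists_root hρ hs1 hs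
  set v : ℝ := (s ^ (ρ : ℂ)).re with hv
  have h3 := E.Sr_down H hρ hρ' hs1 hs h0 (β := v / 2) (by linarith) (|K| / (v / 2))
  refine h3 ?_
  filter_upwards [h, Real.tendsto_log_atTop.eventually_ge_atTop 1] with Y h4 h5
  rw [not_lt]
  have hT : 0 < Real.log Y := by linarith
  have e1 : Real.log (Real.log Y) ≤ Real.log Y ^ ρ := by
    have := Real.log_le_sub_one_of_pos hT
    have e2 : Real.log Y ≤ Real.log Y ^ ρ := by
      conv_lhs => rw [← Real.rpow_one (Real.log Y)]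
      exact Real.rpow_le_rpow_of_exponent_le h5 hρ.le
    linarith
  have e2 : v / 2 * Real.log Y ^ ρ ≤ Real.exp (v / 2 * Real.log Y ^ ρ) := by
    have := Real.add_one_le_exp (v / 2 * Real.log Y ^ ρ)
    linarith
  have e3 : 0 ≤ Real.log (Real.log Y) := Real.log_nonneg h5
  have hv2 : 0 < v / 2 := by linarith
  calc |SrE N α ρ ρ' Y| ≤ K * Real.log (Real.log Y) := h4
    _ ≤ |K| * Real.log Y ^ ρ := mul_le_mul (le_abs_self K) e1 e3 (abs_nonneg _)
    _ = |K| / (v / 2) * (v / 2 * Real.log Y ^ ρ) := by field_simp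
    _ ≤ _ := by gcongr

/-- **The exact exponent of growth.** -/
theorem Sr_level (H : Con N α Ψ) {ρ ρ' : ℝ} (hρ : 1 < ρ) (hρ' : ρ < ρ') {θ : ℝ}
    (hθ : 0 ≤ θ) : (∀ s : ℂ, s ≠ 0 → |s.arg| < Real.pi / (2 * ρ) →
      θ < (s ^ (ρ : ℂ)).re → Ψ s ≠ 0) ↔
    ∀ ε : ℝ, 0 < ε → ∃ C : ℝ, ∀ᶠ Y : ℝ in atTop,
      |SrE N α ρ ρ' Y| ≤ C * Real.exp ((θ + ε) * Real.log Y ^ ρ) := by
  have := E.cnt
  obtain ⟨e, he⟩ := Countable.exists_injective_nat X
  have hρ0 : 0 < ρ := by linarith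
  have h0 : 0 < ρ⁻¹ := by positivity
  have h1 : ρ⁻¹ < 1 := inv_lt_one_of_one_lt₀ hρ
  constructor
  · intro hz ε hε
    have hne : ∀ v : ℂ, θ < v.re → Ψ (v ^ ((ρ⁻¹ : ℝ) : ℂ)) ≠ 0 := by
      intro v hv
      have hv0 : 0 < v.re := lt_of_le_of_lt hθ hv
      have hre := re_pow_pos h0 h1 hv0
      have harg := arg_pow h0 h1 hv0
      have hback : (v ^ ((ρ⁻¹ : ℝ) : ℂ)) ^ (ρ : ℂ) = v := by
        rw [Complex.cpow_def_of_ne_zero (ne_zero' hre), log_pow h0 h1 hv0]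
        have e1 : ((ρ⁻¹ : ℝ) : ℂ) * Complex.log v * (ρ : ℂ) = Complex.log v := by
          have : (ρ : ℂ) ≠ 0 := by exact_mod_cast hρ0.ne'
          push_cast
          field_simp
        rw [e1, Complex.exp_log (ne_zero' hv0)]
      refine hz _ (ne_zero' hre) ?_ ?_
      · refine harg.trans_le (le_of_eq ?_)
        field_simp
      · rw [hback]
        exact hv
    obtain ⟨C, hC⟩ := up_a (E.dat he) (E.cont he H) h0 h1 hθ hne (c₀ := θ + ε) (by linarith)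
    obtain ⟨C₁, hC₁, h2⟩ := E.Sr_close he hρ hρ'
    refine ⟨C + C₁, ?_⟩
    filter_upwards [h2, Real.tendsto_log_atTop.eventually_ge_atTop 1] with Y h3 h4
    have hT : 0 < Real.log Y := by linarith
    have hy : 1 ≤ Real.log Y ^ ρ := Real.one_le_rpow h4 hρ0.le
    have h5 := hC _ hy
    have e1 : 1 ≤ Real.exp ((θ + ε) * Real.log Y ^ ρ) := Real.one_le_exp (by positivity)
    have e4 : C₁ ≤ C₁ * Real.exp ((θ + ε) * Real.log Y ^ ρ) := le_mul_of_one_le_right hC₁ e1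
    have e5 := abs_sub_abs_le_abs_sub (SrE N α ρ ρ' Y)
      (M (lamN N e) (cN N α e) ρ⁻¹ (Real.log Y ^ ρ))
    rw [add_mul]
    linarith
  · intro h s hs1 hs hre h2
    obtain ⟨C, hC⟩ := h (((s ^ (ρ : ℂ)).re - θ) / 2) (by linarith)
    refine E.Sr_down H hρ hρ' hs1 hs h2 (β := θ + ((s ^ (ρ : ℂ)).re - θ) / 2)
      (by linarith) C ?_
    filter_upwards [hC] with Y hY
    rw [not_lt]
    exact hY

end Sys

end Pool.Agent.TH942.ES
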